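import Mathlib
import Pool.Agent.R309.HeavyBall

namespace Pool.Agent.Results.MP_8c4df5_an.PatternFails

open Pool.Agent.R309.HeavyBall

/-- For all 0 < mu < L there are a step size gamma > 0 and a momentum beta in (0,1) for which the
heavy-ball method has a cycle of length 5 with 5 distinct points on a function of the class, but no
cycle of length 5 on any function of the class has the pattern. If mu / L >= 7/8, the step size is
below the stability threshold 2(1+beta)/L for quadratics. -/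
theorem result : ∀ μ L : ℝ, 0 < μ → μ < L → ∃ γ β : ℝ, 0 < γ ∧ 0 < β ∧ β < 1 ∧
    (7 / 8 ≤ μ / L → γ * L < 2 * (1 + β)) ∧
    (∃ x : ℕ → ℝ, IsCycle μ L γ β 5 x ∧ ∀ i j, i < 5 → j < 5 → x i = x j → i = j) ∧
    ¬ ∃ x : ℕ → ℝ, IsCycle μ L γ β 5 x ∧ Ordered 5 x := by
  intro μ L hμ hμL
  have hL : 0 < L := by linarith
  obtain ⟨hφ1, hφ2⟩ := phi_bounds
  set φ := Real.goldenRatio with hφ
  have hr : 0 < μ / L := by positivity
  have hr1 : μ / L < 1 := (div_lt_one hL).mpr hμL
  set δ : ℝ := min (1 - μ / L) (1 / 5) with hδ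
  have hδ0 : 0 < δ := lt_min (by linarith) (by norm_num)
  have hδ5 : δ ≤ 1 / 5 := min_le_right _ _
  have hδr : δ ≤ 1 - μ / L := min_le_left _ _
  have hδL : μ ≤ (1 - δ) * L := by
    have h1 : μ / L ≤ 1 - δ := by linarith
    rwa [div_le_iff₀ hL] at h1
  have hγμ : (2 + φ) * (1 - δ) / μ * μ = (2 + φ) * (1 - δ) := by field_simp
  have h1δ : 0 < 1 - δ := by linarith
  refine ⟨(2 + φ) * (1 - δ) / μ, 1 - δ, by positivity, h1δ, by linarith, ?_, ?_, ?_⟩
  · intro h78
    have h1 : δ = 1 - μ / L := by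
      rw [hδ]; exact min_eq_left (by linarith)
    rw [h1]
    have h2 : (2 + φ) * (1 - (1 - μ / L)) / μ * L = 2 + φ := by
      field_simp
      ring
    rw [h2]
    linarith
  · exact ⟨xs, exists_five hμ hδ0.le (by linarith) hδL, fun i j hi hj h => xs_injOn hi hj h⟩
  · rintro ⟨x, hx, ho⟩
    refine no_ordered (by positivity) h1δ.le (by linarith) ?_ (by norm_num) hx ho
    rw [hγμ]
    nlinarith

end Pool.Agent.Results.MP_8c4df5_an.PatternFails
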